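import Pool.Agent.helper70.QSD.SpecD

set_option linter.unusedVariables false

namespace Pool.Agent.helper70.QSD

open Pool.Agent.helper53.AU

theorem EMB_char (K : Type) [Field K] [Fintype K] (n : ℕ) (h : Fintype.card K = 2 ^ n) :
    CharP K 2 := by
  obtain ⟨p, hp⟩ := CharP.exists K
  obtain ⟨m, hpr, hm⟩ := FiniteField.card K p
  have h1 : p ∣ 2 ^ n := by
    rw [← h, hm]
    exact dvd_pow_self p m.pos.ne'
  have h2 : p ∣ 2 := hpr.dvd_of_dvd_pow h1
  have h3 : p = 2 := (Nat.prime_dvd_prime_iff_eq hpr Nat.prime_two).1 h2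
  rw [← h3]
  exact hp

theorem EMB : EMB_stmt := by
  classical
  refine ⟨fun K _ _ n hn => ?_, fun n hn => ?_⟩
  · have hchar : CharP K 2 := EMB_char K n hn
    refine ⟨hchar, ?_⟩
    have hn0 : n ≠ 0 := by
      rintro rfl
      have h1 : 1 < Fintype.card K := Fintype.one_lt_card
      rw [hn, pow_zero] at h1
      omega
    let : Algebra (ZMod 2) K := ZMod.algebra K 2
    have hfin : Module.Finite (ZMod 2) K := Module.Finite.of_finite
    have halg : Algebra.IsAlgebraic (ZMod 2) K := Algebra.IsAlgebraic.of_finite (ZMod 2) K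
    let ι : K →ₐ[ZMod 2] kk := IsAlgClosed.lift
    refine ⟨(ι : K →+* kk), ?_⟩
    have hq : 1 < 2 ^ n := Nat.one_lt_two_pow hn0
    set P : Polynomial kk := Polynomial.X ^ 2 ^ n - Polynomial.X with hP
    have hP0 : P ≠ 0 := FiniteField.X_pow_card_sub_X_ne_zero kk hq
    have hdeg : P.natDegree = 2 ^ n := FiniteField.X_pow_card_sub_X_natDegree_eq kk hq
    have hS : {x : kk | x ^ 2 ^ n = x} = ↑P.roots.toFinset := by
      ext x
      rw [Finset.mem_coe, Multiset.mem_toFinset, Polynomial.mem_roots hP0, Polynomial.IsRoot.def,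
        hP, Polynomial.eval_sub, Polynomial.eval_pow, Polynomial.eval_X, sub_eq_zero]
      exact Iff.rfl
    have hcard : P.roots.toFinset.card ≤ 2 ^ n := by
      rw [← hdeg]
      exact (Multiset.toFinset_card_le _).trans (Polynomial.card_roots' P)
    apply Set.eq_of_subset_of_ncard_le
    · rintro _ ⟨x, rfl⟩
      show (ι x) ^ 2 ^ n = ι x
      rw [← map_pow, ← hn, FiniteField.pow_card]
    · rw [hS, Set.ncard_coe_finset]
      refine hcard.trans ?_
      have h1 : (Set.range ((ι : K →+* kk) : K → kk)).ncard = Nat.card K := by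
        rw [← Nat.card_coe_set_eq]
        exact Nat.card_range_of_injective (RingHom.injective _)
      rw [h1, Nat.card_eq_fintype_card, hn]
    · rw [hS]
      exact Finset.finite_toSet _
  · have : Fact (Nat.Prime 2) := ⟨Nat.prime_two⟩
    have hf : Finite (GaloisField 2 n) := inferInstance
    refine ⟨GaloisField 2 n, inferInstance, Fintype.ofFinite _, ?_⟩
    rw [@Fintype.card_eq_nat_card _ (Fintype.ofFinite _)]
    exact GaloisField.card 2 n (by omega)

end Pool.Agent.helper70.QSD
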